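import Pool.Agent.X119.Cong

/-!
# The conjectured congruence fails for `p = 41` and `p = 113`
-/

set_option autoImplicit false

namespace Pool.Agent.Results.MP_17cdb9_nt.FailsAt41

open Finset Pool.Agent.X119.Cong

/-- `S(p)` -/
def S (p : ℕ) : ℚ := ∑ k ∈ range p, (-1) ^ k * binom (-1 / 4) k ^ 2

/-- the right-hand side for `p = x ^ 2 + 2 y ^ 2 ≡ 1 (mod 8)` -/
def R1 (p : ℕ) (x : ℤ) : ℚ := (-1 : ℚ) ^ ((x + 1) / 2) * (2 * x - p / (2 * x))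

/-- the right-hand side for `p = x ^ 2 + 2 y ^ 2 ≡ 3 (mod 8)` -/
def R3 (p : ℕ) (y : ℤ) : ℚ := (-1 : ℚ) ^ ((y - 1) / 2) * (4 * y - p / (2 * y))

theorem fail41 (x : ℤ) (hx : x = 3 ∨ x = -3) : ¬ Cong 41 2 (S 41) (R1 41 x) := by
  rcases hx with rfl | rfl
  · exact not_cong' (z := 6 - 41 / 6) (by rw [R1]; norm_num) (by decide +kernel)
  · exact not_cong' (z := 6 - 41 / 6) (by rw [R1]; norm_num) (by decide +kernel)

theorem fail113 (x : ℤ) (hx : x = 9 ∨ x = -9) : ¬ Cong 113 2 (S 113) (R1 113 x) := by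
  rcases hx with rfl | rfl
  · exact not_cong' (z := -(18 - 113 / 18)) (by rw [R1]; norm_num) (by decide +kernel)
  · exact not_cong' (z := -(18 - 113 / 18)) (by rw [R1]; norm_num) (by decide +kernel)

/-- The congruence `S(p) ≡ (-1) ^ ((x + 1) / 2) (2 x - p / (2 x)) (mod p ^ 2)` fails for `p = 41` and `p = 113` (for both
signs of `x`), so that the assertion of Q1 is false. -/
theorem result :
    ((∀ x : ℤ, x = 3 ∨ x = -3 → ¬ Cong 41 2 (S 41) (R1 41 x)) ∧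
      (∀ x : ℤ, x = 9 ∨ x = -9 → ¬ Cong 113 2 (S 113) (R1 113 x))) ∧
    ¬ ∀ p : ℕ, p.Prime → p ≠ 2 →
      (p % 8 = 1 → ∀ x y : ℤ, (p : ℤ) = x ^ 2 + 2 * y ^ 2 → Cong p 2 (S p) (R1 p x)) ∧
      (p % 8 = 3 → ∀ x y : ℤ, (p : ℤ) = x ^ 2 + 2 * y ^ 2 → Cong p 2 (S p) (R3 p y)) ∧
      (p % 8 = 5 ∨ p % 8 = 7 → Cong p 1 (S p) 0) :=
  ⟨⟨fail41, fail113⟩, fun h => fail41 3 (Or.inl rfl)
    ((h 41 (by norm_num) (by norm_num)).1 (by norm_num) 3 4 (by norm_num))⟩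

end Pool.Agent.Results.MP_17cdb9_nt.FailsAt41
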